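import Pool.Agent.ABY.Stmts

/-!
# Tank ABY, row VJT: the jet of the virtual vector (helper59)
-/

set_option autoImplicit false

open scoped BigOperators Matrix

noncomputable section

namespace Pool.Agent.ABY.H59

open Pool.Agent.LE.QF Pool.Agent.AFJ

section jets

variable {ι : Type} [Fintype ι] [DecidableEq ι] {𝕜 : Type} [RCLike 𝕜] {q : ℝ × (ι → ℝ)}

/-- jets of vectors -/
def HV {m : Type} (F : ℝ × (ι → ℝ) → m → 𝕜) (q : ℝ × (ι → ℝ)) (v : m → 𝕜) (g : ι → m → 𝕜)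
    (l : m → 𝕜) : Prop :=
  ∀ a, HJ (fun r => F r a) q (v a) (fun c => g c a) (l a)

theorem hv_mul (jma : JmaStmt) {m n : Type} [Fintype n] {F : ℝ × (ι → ℝ) → Matrix m n 𝕜}
    {H : ℝ × (ι → ℝ) → n → 𝕜} {v l : Matrix m n 𝕜} {v' l' : n → 𝕜} {g : ι → Matrix m n 𝕜}
    {g' : ι → n → 𝕜} (hF : HM F q v g l) (hH : HV H q v' g' l') :
    HV (fun r => F r *ᵥ H r) q (v *ᵥ v') (fun c => v *ᵥ g' c + g c *ᵥ v')
      (v *ᵥ l' + l *ᵥ v' + ∑ c, g c *ᵥ g' c) := by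
  have h1 : HM (fun r => (Matrix.of fun x (_ : Unit) => H r x : Matrix n Unit 𝕜)) q
      (Matrix.of fun x _ => v' x) (fun c => Matrix.of fun x _ => g' c x)
      (Matrix.of fun x _ => l' x) := fun a _ => hH a
  have h2 := (jma ι 𝕜 q).1 m n Unit F _ v l _ _ g _ hF h1
  intro a
  have h3 := h2 a ()
  have e1 : (v * (Matrix.of fun x (_ : Unit) => l' x : Matrix n Unit 𝕜) +
      l * (Matrix.of fun x (_ : Unit) => v' x : Matrix n Unit 𝕜) +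
      ∑ c, g c * (Matrix.of fun x (_ : Unit) => g' c x : Matrix n Unit 𝕜)) a () =
      (v *ᵥ l' + l *ᵥ v' + ∑ c, g c *ᵥ g' c) a := by
    rw [Matrix.add_apply, Matrix.add_apply, Matrix.sum_apply, Pi.add_apply, Pi.add_apply,
      Finset.sum_apply]
    rfl
  rw [e1] at h3
  exact h3

theorem hm_const (jal : JalStmt) {m n : Type} (v : Matrix m n 𝕜) :
    HM (fun _ : ℝ × (ι → ℝ) => v) q v (fun _ => 0) 0 :=
  fun a b => (jal ι 𝕜 q).1 (v a b)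

theorem hv_const (jal : JalStmt) {m : Type} (v : m → 𝕜) :
    HV (fun _ : ℝ × (ι → ℝ) => v) q v (fun _ => 0) 0 :=
  fun a => (jal ι 𝕜 q).1 (v a)

theorem hm_sub (jal : JalStmt) {m n : Type} {F H : ℝ × (ι → ℝ) → Matrix m n 𝕜}
    {v v' l l' : Matrix m n 𝕜} {g g' : ι → Matrix m n 𝕜} (hF : HM F q v g l)
    (hH : HM H q v' g' l') :
    HM (fun r => F r - H r) q (v - v') (fun c => g c - g' c) (l - l') :=
  fun a b => ((jal ι 𝕜 q).2.2.1 _ _ _ _ _ _ _ _ (hF a b) (hH a b)).2.1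

theorem hm_dg (jal : JalStmt) {X : Type} [Fintype X] [DecidableEq X] {Pf : ℝ → X → ℝ}
    {P d : X → ℝ} (hP : ∀ x, ContDiffAt ℝ 2 (fun t => Pf t x) q.1 ∧ Pf q.1 x = P x ∧
      deriv (fun t => Pf t x) q.1 = d x) :
    HM (fun r => dg 𝕜 (Pf r.1)) q (dg 𝕜 P) (fun _ => 0) (dg 𝕜 d) := by
  intro x y
  by_cases hxy : x = y
  · subst hxy
    obtain ⟨h1, h2, h3⟩ := hP x
    have h4 := (jal ι ℝ q).2.2.2.2.2.2.1 (fun t => Pf t x) h1
    have h5 := ((jal ι 𝕜 q).2.2.2.2.1 _ _ _ _ h4).1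
    have e1 : (fun r : ℝ × (ι → ℝ) => dg 𝕜 (Pf r.1) x x) =
        fun r => ((Pf r.1 x : ℝ) : 𝕜) := by
      funext r
      exact Matrix.diagonal_apply_eq _ _
    rw [e1]
    have e2 : dg 𝕜 P x x = ((Pf q.1 x : ℝ) : 𝕜) := by
      rw [h2]
      exact Matrix.diagonal_apply_eq _ _
    have e3 : dg 𝕜 d x x = ((deriv (fun t => Pf t x) q.1 : ℝ) : 𝕜) := by
      rw [h3]
      exact Matrix.diagonal_apply_eq _ _
    rw [e2, e3]
    simp only [RCLike.ofReal_zero] at h5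
    exact h5
  · have e1 : (fun r : ℝ × (ι → ℝ) => dg 𝕜 (Pf r.1) x y) = fun r => (0 : 𝕜) := by
      funext r
      exact Matrix.diagonal_apply_ne _ hxy
    rw [e1, show dg 𝕜 P x y = 0 from Matrix.diagonal_apply_ne _ hxy,
      show dg 𝕜 d x y = 0 from Matrix.diagonal_apply_ne _ hxy]
    exact (jal ι 𝕜 q).1 0

end jets

/-- Row VJT. -/
theorem vjt : VjtStmt := by
  intro jal jma 𝕜 _ X _ _ b q M v e gM Pf P w hM hP hu a
  have hD : HM (fun r => dg 𝕜 (Pf r.1)) q (dg 𝕜 P) (fun _ => 0) (dg 𝕜 fun x => -ind b x) :=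
    hm_dg jal hP
  have hMD := (jma b 𝕜 q).1 X X X M _ _ _ _ _ _ _ hM hD
  have hF := hm_sub jal (hm_const (q := q) jal (1 : Matrix X X 𝕜)) hMD
  have hI := ((jma b 𝕜 q).2 X _ _ _ _ hF).1 hu
  have hw := hv_mul jma hM (hv_const (q := q) jal fun x => ((w x : ℝ) : 𝕜))
  have hV := hv_mul jma hI hw
  have h := hV a
  set T : Matrix X X 𝕜 := (1 - v * dg 𝕜 P)⁻¹ with hT
  set W : X → 𝕜 := fun x => ((w x : ℝ) : 𝕜) with hW
  set D : Matrix X X 𝕜 := dg 𝕜 (ind b) with hDd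
  set Q : Matrix X X 𝕜 := dg 𝕜 P with hQ
  have hneg : dg 𝕜 (fun x => -ind b x) = -D := by
    rw [hDd]
    ext x y
    by_cases hxy : x = y
    · subst hxy
      simp [dg]
    · simp [dg, hxy]
  set be : X → 𝕜 := T *ᵥ (v *ᵥ W) with hbe
  have hvir : vir v P w = be := rfl
  have hpsi : psi P w be = W + Q *ᵥ be := by
    funext x
    rw [Pi.add_apply, hQ, dg, Matrix.mulVec_diagonal]
    rfl
  -- `be = v ψ`
  have hbv : v *ᵥ W + v *ᵥ (Q *ᵥ be) = be := by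
    have h1 : (1 - v * Q) *ᵥ be = v *ᵥ W := by
      rw [hbe, Matrix.mulVec_mulVec, hT, Matrix.mul_nonsing_inv _ hu, Matrix.one_mulVec]
    rw [Matrix.sub_mulVec, Matrix.one_mulVec, ← Matrix.mulVec_mulVec] at h1
    rw [← h1]
    abel
  have hTT : TT v P = T := rfl
  have hT2 : (fun r : ℝ × (b → ℝ) => vir (M r) (Pf r.1) w a) =
      fun r => ((1 - M r * dg 𝕜 (Pf r.1))⁻¹ *ᵥ (M r *ᵥ W)) a := rfl
  rw [hT2, hvir, hpsi, hTT]
  have eg : ∀ c, (T *ᵥ (v *ᵥ (0 : X → 𝕜) + gM c *ᵥ W) +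
      (-(T * (0 - (v * 0 + gM c * Q)) * T)) *ᵥ (v *ᵥ W)) =
      T *ᵥ (gM c *ᵥ (W + Q *ᵥ be)) := by
    intro c
    simp only [Matrix.mulVec_zero, Matrix.mul_zero, zero_add, zero_sub, Matrix.mul_neg,
      Matrix.neg_mul, neg_neg, Matrix.mulVec_add, ← Matrix.mulVec_mulVec, ← hbe]
  have el : T *ᵥ (v *ᵥ (0 : X → 𝕜) + (v * D * v + e) *ᵥ W + ∑ c, gM c *ᵥ (0 : X → 𝕜)) +
      (-(T * (0 - (v * dg 𝕜 (fun x => -ind b x) + (v * D * v + e) * Q +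
        ∑ c, gM c * (0 : Matrix X X 𝕜))) * T) +
        ∑ c, T * (0 - (v * 0 + gM c * Q)) * T * (0 - (v * 0 + gM c * Q)) * T) *ᵥ (v *ᵥ W) +
      ∑ c, (-(T * (0 - (v * 0 + gM c * Q)) * T)) *ᵥ (v *ᵥ (0 : X → 𝕜) + gM c *ᵥ W) =
      T *ᵥ (e *ᵥ (W + Q *ᵥ be)) +
        ∑ c, T *ᵥ (gM c *ᵥ (Q *ᵥ (T *ᵥ (gM c *ᵥ (W + Q *ᵥ be))))) := by
    have e1 : T *ᵥ (v *ᵥ (D *ᵥ (v *ᵥ W))) =
        T *ᵥ (v *ᵥ (D *ᵥ be)) - T *ᵥ (v *ᵥ (D *ᵥ (v *ᵥ (Q *ᵥ be)))) := by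
      rw [← Matrix.mulVec_sub, ← Matrix.mulVec_sub, ← Matrix.mulVec_sub]
      congr 4
      exact eq_sub_of_add_eq hbv
    rw [hneg]
    simp only [Matrix.mulVec_zero, Matrix.mul_zero, zero_add, zero_sub, Matrix.mul_neg,
      Matrix.neg_mul, neg_neg, Finset.sum_const_zero, add_zero, Matrix.mulVec_add,
      Matrix.add_mulVec, Matrix.mul_add, Matrix.add_mul, Matrix.sum_mulVec, Matrix.neg_mulVec,
      ← Matrix.mulVec_mulVec, Finset.sum_add_distrib, ← hbe, e1]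
    abel
  simp only [eg] at h
  rw [el, Pi.add_apply, Finset.sum_apply] at h
  exact h

end Pool.Agent.ABY.H59
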